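import Pool.Agent.KS6_18.TwE.Fin

/-!
# `‡`-Euclidean orders over arbitrary integrally closed base rings, in every characteristic

If some `‡`-order over an integrally closed domain `R` is `‡`-Euclidean then `R` is a Prüfer
domain, every maximal `‡`-order is `‡`-Euclidean, every `‡`-order is contained in a `‡`-Euclidean
one and the maximal `‡`-orders are conjugate.  The case of the ring of integers of a number field
and of a quaternion algebra is the answer (yes) to Q1.
-/

set_option autoImplicit false

namespace Pool.Agent.Results.MP_d00095_nt.EveryBaseRing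

open NumberField Module
open Pool.Agent.KS6_18.TwE

universe u₁ u₂ u₃ w

theorem result :
    (∀ (R : Type u₁) (K : Type u₂) (H : Type u₃) [CommRing R] [IsDomain R] [IsIntegrallyClosed R]
      [Field K] [Algebra R K] [IsFractionRing R K] [Ring H] [Nontrivial H] [Algebra K H]
      [Algebra R H] [IsScalarTower R K H] (D : OrthInv K H), HasEuclideanOrder.{w} R D →
        IsPrufer R ∧ MaximalOrdersEuclidean.{w} R D ∧ OrdersInEuclideanOrders.{w} R D ∧
          MaximalOrdersConjugate R D) ∧
    (∀ (K : Type u₂) (H : Type u₃) [Field K] [NumberField K] [Ring H] [Algebra K H]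
      [Algebra.IsCentral K H] [IsSimpleRing H], finrank K H = 4 → ∀ D : OrthInv K H,
        HasEuclideanOrder.{w} (𝓞 K) D →
          MaximalOrdersEuclidean.{w} (𝓞 K) D ∧ OrdersInEuclideanOrders.{w} (𝓞 K) D ∧
            MaximalOrdersConjugate (𝓞 K) D) :=
  ⟨fun _ _ _ => fun D h => all D h, fun _ _ => fun _ D h => (all D h).2⟩

end Pool.Agent.Results.MP_d00095_nt.EveryBaseRing
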